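import Mathlib

/-!
# MP_c62aed_lc, semidefinite relaxations: duality without a Slater condition

If an affine functional is nonnegative on a nonempty spectrahedron, it agrees at finitely many
points, up to any error, with a functional `y ↦ Tr (L A(y)) + c`, `L` positive semidefinite, `c ≥ 0`.
-/

set_option autoImplicit false

namespace Pool.Agent.H70.SDP

open Matrix Finset

variable {ι : Type} [Fintype ι] [DecidableEq ι] {d : ℕ}

/-- the linear matrix pencil `A0 + ∑ y k • A k` -/
def pencil (A0 : Matrix ι ι ℝ) (A : Fin d → Matrix ι ι ℝ) (y : Fin d → ℝ) : Matrix ι ι ℝ :=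
  A0 + ∑ k, y k • A k

omit [DecidableEq ι] in
theorem trace_mul_pencil (A0 : Matrix ι ι ℝ) (A : Fin d → Matrix ι ι ℝ) (L : Matrix ι ι ℝ)
    (y : Fin d → ℝ) :
    trace (L * pencil A0 A y) = trace (L * A0) + ∑ k, y k * trace (L * A k) := by
  unfold pencil
  rw [mul_add, trace_add, Finset.mul_sum, trace_sum]
  congr 1
  refine sum_congr rfl fun k _ => ?_
  rw [mul_smul_comm, trace_smul, smul_eq_mul]

/-- the cone of the functionals `(k ↦ Tr (L A k), Tr (L A0) + c)` -/
def cone (A0 : Matrix ι ι ℝ) (A : Fin d → Matrix ι ι ℝ) : Set ((Fin d → ℝ) × ℝ) :=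
  {p | ∃ (L : Matrix ι ι ℝ) (c : ℝ), L.PosSemidef ∧ 0 ≤ c ∧
    p = (fun k => trace (L * A k), trace (L * A0) + c)}

omit [DecidableEq ι] in
theorem cone_zero (A0 : Matrix ι ι ℝ) (A : Fin d → Matrix ι ι ℝ) : (0 : (Fin d → ℝ) × ℝ) ∈ cone A0 A :=
  ⟨0, 0, PosSemidef.zero, le_refl _, by
    ext
    · simp
    · simp⟩

omit [DecidableEq ι] in
theorem cone_add {A0 : Matrix ι ι ℝ} {A : Fin d → Matrix ι ι ℝ} {p q : (Fin d → ℝ) × ℝ}
    (hp : p ∈ cone A0 A) (hq : q ∈ cone A0 A) : p + q ∈ cone A0 A := by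
  obtain ⟨L, c, hL, hc, rfl⟩ := hp
  obtain ⟨L', c', hL', hc', rfl⟩ := hq
  refine ⟨L + L', c + c', hL.add hL', add_nonneg hc hc', ?_⟩
  ext
  · simp [add_mul, trace_add]
  · simp only [Prod.snd_add, add_mul, trace_add]
    ring

omit [DecidableEq ι] in
theorem cone_smul {A0 : Matrix ι ι ℝ} {A : Fin d → Matrix ι ι ℝ} {p : (Fin d → ℝ) × ℝ} {t : ℝ}
    (ht : 0 ≤ t) (hp : p ∈ cone A0 A) : t • p ∈ cone A0 A := by
  obtain ⟨L, c, hL, hc, rfl⟩ := hp
  refine ⟨t • L, t * c, hL.smul ht, mul_nonneg ht hc, ?_⟩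
  ext
  · simp [smul_mul_assoc, trace_smul]
  · simp only [Prod.smul_snd, smul_mul_assoc, trace_smul, smul_eq_mul]
    ring

omit [DecidableEq ι] in
theorem cone_convex (A0 : Matrix ι ι ℝ) (A : Fin d → Matrix ι ι ℝ) : Convex ℝ (cone A0 A) := by
  intro p hp q hq a b ha hb _
  exact cone_add (cone_smul ha hp) (cone_smul hb hq)

/-- The dual certificate lies in the closure of the cone. -/
theorem mem_closure_cone {A0 : Matrix ι ι ℝ} {A : Fin d → Matrix ι ι ℝ} (hA0 : A0.IsHermitian)
    (hA : ∀ k, (A k).IsHermitian) (y0 : Fin d → ℝ) (hy0 : (pencil A0 A y0).PosSemidef)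
    (h : Fin d → ℝ) (h0 : ℝ)
    (H : ∀ y, (pencil A0 A y).PosSemidef → 0 ≤ ∑ k, h k * y k + h0) :
    (h, h0) ∈ closure (cone A0 A) := by
  by_contra hn
  obtain ⟨f, u, hf, hfu⟩ := geometric_hahn_banach_closed_point (cone_convex A0 A).closure
    isClosed_closure hn
  have hu : 0 < u := by
    have := hf 0 (subset_closure (cone_zero A0 A))
    simpa using this
  -- the functional is nonpositive on the cone
  have hle : ∀ p ∈ cone A0 A, f p ≤ 0 := by
    intro p hp
    by_contra hpos
    push Not at hpos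
    have h1 := hf ((u / f p) • p) (subset_closure (cone_smul (by positivity) hp))
    rw [map_smul, smul_eq_mul, div_mul_cancel₀ _ hpos.ne'] at h1
    exact lt_irrefl _ h1
  -- coordinates
  set y : Fin d → ℝ := fun k => -f (Pi.single k 1, 0) with hy
  set t : ℝ := -f (0, 1) with ht
  have hfe : ∀ (v : Fin d → ℝ) (s : ℝ), f (v, s) = -(∑ k, v k * y k + s * t) := by
    intro v s
    have h1 : ((v, s) : (Fin d → ℝ) × ℝ) = ∑ k, v k • ((Pi.single k 1, 0) : (Fin d → ℝ) × ℝ) +
        s • ((0, 1) : (Fin d → ℝ) × ℝ) := by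
      ext
      · rename_i j
        simp [Finset.sum_apply, Prod.fst_sum, Pi.single_apply]
      · simp [Prod.snd_sum]
    rw [h1, map_add, map_sum, map_smul, smul_eq_mul]
    have h2 : ∀ k, f (v k • ((Pi.single k 1, 0) : (Fin d → ℝ) × ℝ)) = -(v k * y k) := by
      intro k
      rw [map_smul, smul_eq_mul, hy]
      ring
    rw [Finset.sum_congr rfl fun k _ => h2 k, Finset.sum_neg_distrib, ht]
    ring
  have ht0 : 0 ≤ t := by
    have h1 := hle (0, 1) ⟨0, 1, PosSemidef.zero, zero_le_one, by ext <;> simp⟩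
    rw [ht]
    linarith
  have hpsd : ((t • A0) + ∑ k, y k • A k).PosSemidef := by
    refine PosSemidef.of_dotProduct_mulVec_nonneg ?_ fun x => ?_
    · refine (IsHermitian.add ?_ ?_)
      · unfold IsHermitian
        rw [conjTranspose_smul, hA0.eq]
        simp
      · unfold IsHermitian
        rw [conjTranspose_sum]
        refine sum_congr rfl fun k _ => ?_
        rw [conjTranspose_smul, (hA k).eq]
        simp
    · have hL : (vecMulVec x x).PosSemidef := by
        have := posSemidef_vecMulVec_self_star x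
        simpa using this
      have h1 := hle _ ⟨vecMulVec x x, 0, hL, le_refl _, rfl⟩
      rw [hfe] at h1
      have h2 : ∀ B : Matrix ι ι ℝ, trace (vecMulVec x x * B) = x ⬝ᵥ (B *ᵥ x) := by
        intro B
        rw [trace_mul_comm, mul_vecMulVec, trace_vecMulVec]
        exact dotProduct_comm _ _
      have h3 : star x = x := by
        ext i
        simp
      rw [h3, add_mulVec, sum_mulVec, dotProduct_add, dotProduct_sum]
      simp only [smul_mulVec, dotProduct_smul, smul_eq_mul]
      simp only [h2, add_zero] at h1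
      have h4 : ∑ k, (x ⬝ᵥ A k *ᵥ x) * y k = ∑ k, y k * (x ⬝ᵥ A k *ᵥ x) :=
        sum_congr rfl fun k _ => mul_comm _ _
      rw [h4] at h1
      linarith
  have hneg : ∑ k, h k * y k + h0 * t < 0 := by
    have := hu.trans hfu
    rw [hfe] at this
    linarith
  rcases ht0.eq_or_lt with h00 | h00
  · -- a direction of recession
    rw [← h00] at hpsd hneg
    rw [zero_smul, zero_add] at hpsd
    rw [mul_zero, add_zero] at hneg
    have hray : ∀ s : ℝ, 0 ≤ s → 0 ≤ ∑ k, h k * (y0 k + s * y k) + h0 := by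
      intro s hs
      apply H
      have h1 : pencil A0 A (fun k => y0 k + s * y k) = pencil A0 A y0 + s • ∑ k, y k • A k := by
        unfold pencil
        rw [add_assoc]
        congr 1
        rw [smul_sum, ← sum_add_distrib]
        refine sum_congr rfl fun k _ => ?_
        rw [add_smul, mul_smul]
      rw [h1]
      exact hy0.add (hpsd.smul hs)
    have h2 : ∀ s : ℝ, ∑ k, h k * (y0 k + s * y k) + h0 =
        (∑ k, h k * y0 k + h0) + s * ∑ k, h k * y k := by
      intro s
      rw [mul_sum]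
      simp only [mul_add, sum_add_distrib]
      have : ∑ k, h k * (s * y k) = ∑ k, s * (h k * y k) := sum_congr rfl fun k _ => by ring
      rw [this]
      ring
    set a := ∑ k, h k * y0 k + h0 with ha
    set b := ∑ k, h k * y k with hb
    have h3 := hray ((|a| + 1) / (-b)) (by
      have : 0 < -b := by linarith
      positivity)
    rw [h2] at h3
    have h4 : (|a| + 1) / (-b) * b = -(|a| + 1) := by
      rw [div_neg, neg_mul, div_mul_cancel₀ _ hneg.ne]
    rw [h4] at h3
    have := le_abs_self a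
    linarith
  · -- a feasible point
    have h1 : pencil A0 A (fun k => y k / t) = t⁻¹ • ((t • A0) + ∑ k, y k • A k) := by
      unfold pencil
      rw [smul_add, smul_smul, inv_mul_cancel₀ h00.ne', one_smul, smul_sum]
      congr 1
      refine sum_congr rfl fun k _ => ?_
      rw [smul_smul]
      congr 1
      exact div_eq_inv_mul _ _
    have h2 := H (fun k => y k / t) (by
      rw [h1]
      exact hpsd.smul (by positivity))
    have h3 : ∑ k, h k * (y k / t) + h0 = (∑ k, h k * y k + h0 * t) / t := by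
      rw [add_div, sum_div, mul_div_cancel_right₀ _ h00.ne']
      congr 1
      exact sum_congr rfl fun k _ => by ring
    rw [h3] at h2
    have h4 := div_neg_of_neg_of_pos hneg h00
    linarith

/-- DUALITY: an affine functional `≥ 0` on a spectrahedron is, at finitely many points of it and up
to any positive error, equal to `Tr (L A(y)) + c` with `L` positive semidefinite and `c ≥ 0`. -/
theorem dual {X : Type} [Finite X] {A0 : Matrix ι ι ℝ} {A : Fin d → Matrix ι ι ℝ}
    (hA0 : A0.IsHermitian) (hA : ∀ k, (A k).IsHermitian) (pt : X → Fin d → ℝ)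
    (y0 : Fin d → ℝ) (hy0 : (pencil A0 A y0).PosSemidef) (h : Fin d → ℝ) (h0 : ℝ)
    (H : ∀ y, (pencil A0 A y).PosSemidef → 0 ≤ ∑ k, h k * y k + h0) (ε : ℝ) (hε : 0 < ε) :
    ∃ (L : Matrix ι ι ℝ) (c : ℝ), L.PosSemidef ∧ 0 ≤ c ∧
      ∀ x, |trace (L * pencil A0 A (pt x)) + c - (∑ k, h k * pt x k + h0)| ≤ ε := by
  classical
  have := Fintype.ofFinite X
  set K : ℝ := ∑ x, (∑ k, |pt x k| + 1) with hK
  have hK0 : ∀ x, (∑ k, |pt x k| + 1) ≤ K := by
    intro x
    exact single_le_sum (f := fun x => ∑ k, |pt x k| + 1)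
      (fun x _ => by positivity) (mem_univ x)
  have hKn : 0 ≤ K := sum_nonneg fun x _ => by positivity
  have hmem := mem_closure_cone hA0 hA y0 hy0 h h0 H
  rw [Metric.mem_closure_iff] at hmem
  obtain ⟨p, ⟨L, c, hL, hc, rfl⟩, hp⟩ := hmem (ε / (K + 1)) (by positivity)
  refine ⟨L, c, hL, hc, fun x => ?_⟩
  have h1 : ∀ k, |h k - trace (L * A k)| ≤ ε / (K + 1) := by
    intro k
    have h2 : dist h (fun k => trace (L * A k)) ≤ ε / (K + 1) :=
      (le_max_left _ _).trans hp.le
    exact (dist_le_pi_dist h _ k).trans h2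
  have h2 : |h0 - (trace (L * A0) + c)| ≤ ε / (K + 1) :=
    (le_max_right (dist h (fun k => trace (L * A k))) _).trans hp.le
  rw [trace_mul_pencil]
  have h3 : trace (L * A0) + ∑ k, pt x k * trace (L * A k) + c - (∑ k, h k * pt x k + h0) =
      ∑ k, pt x k * (trace (L * A k) - h k) + (trace (L * A0) + c - h0) := by
    simp only [mul_sub, sum_sub_distrib]
    have : ∑ k, h k * pt x k = ∑ k, pt x k * h k := sum_congr rfl fun k _ => mul_comm _ _
    rw [this]
    ring
  rw [h3]
  have h4 : |∑ k, pt x k * (trace (L * A k) - h k)| ≤ (∑ k, |pt x k|) * (ε / (K + 1)) := by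
    rw [sum_mul]
    refine (abs_sum_le_sum_abs _ _).trans (sum_le_sum fun k _ => ?_)
    rw [abs_mul, abs_sub_comm]
    exact mul_le_mul_of_nonneg_left (h1 k) (abs_nonneg _)
  have h5 : |trace (L * A0) + c - h0| ≤ ε / (K + 1) := by
    rw [abs_sub_comm]
    exact h2
  calc |∑ k, pt x k * (trace (L * A k) - h k) + (trace (L * A0) + c - h0)|
      ≤ |∑ k, pt x k * (trace (L * A k) - h k)| + |trace (L * A0) + c - h0| := abs_add_le _ _
    _ ≤ (∑ k, |pt x k|) * (ε / (K + 1)) + ε / (K + 1) := add_le_add h4 h5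
    _ = (∑ k, |pt x k| + 1) * (ε / (K + 1)) := by ring
    _ ≤ (K + 1) * (ε / (K + 1)) := by
        refine mul_le_mul_of_nonneg_right ((hK0 x).trans (by linarith)) (by positivity)
    _ = ε := by field_simp

end Pool.Agent.H70.SDP
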