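import Pool.Agent.H49.SDP.Targets
import Pool.Agent.H70.SDP.Dual

/-!
# MP_c62aed_lc, semidefinite relaxations: row SDUAL (helper70)
-/

namespace Pool.Agent.H70.SDP

open Finset Matrix Pool.Agent.H49.SDP
open Pool.Agent.H1.LP (Clause viol Loc Sys Agree supp ip kk)

/-- Row SDUAL: approximate duality for spectrahedral relaxations. -/
theorem pf_SDUAL : S_SDUAL := by
  intro n m P phi de hne href η hη
  obtain ⟨x0, hx0⟩ := hne
  have hsym : ∀ B : Matrix (Fin P.ord) (Fin P.ord) ℝ, B.IsSymm → B.IsHermitian := by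
    intro B hB
    unfold Matrix.IsHermitian
    rw [conjTranspose_eq_transpose_of_trivial]
    exact hB
  have hloss : ∀ y : Fin P.dim → ℝ, ∑ i, P.loss (phi i) y - de =
      ∑ k, (∑ i, P.w (phi i) k) * y k + (∑ i, P.w0 (phi i) - de) := by
    intro y
    unfold SRelax.loss
    rw [sum_add_distrib, sum_comm]
    simp only [sum_mul]
    ring
  obtain ⟨L, c, hL, hc, h⟩ := dual (X := {x // x ∈ P.cell}) (hsym _ P.symm0)
    (fun k => hsym _ (P.symm k)) (fun x => P.pt x.1) (P.pt x0) (P.feas x0 hx0)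
    (fun k => ∑ i, P.w (phi i) k) (∑ i, P.w0 (phi i) - de)
    (fun y hy => by
      rw [← hloss]
      have := href y hy
      linarith) η hη
  refine ⟨L, c, hL, hc, fun x hx => ?_⟩
  have h1 := h ⟨x, hx⟩
  rw [← hloss] at h1
  rw [abs_sub_comm, add_comm c]
  exact h1

end Pool.Agent.H70.SDP
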