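import Pool.Agent.H86.KX.ABS

/-!
# MP_c62aed_lc, semidefinite relaxations: the loss terms of a refuted family
(the proof is that of helper86 in `Pool.Agent.H86.KX.ABS`)
-/

set_option autoImplicit false

namespace Pool.Agent.H70.SDP

open Finset Pool.Agent.H96.KX Pool.Agent.H86.KX

/-- the loss terms of a refuted family -/
theorem loss_bound (X Y C : Type) [Fintype X] [Fintype Y] [Fintype C] (K : Y → X → ℝ) (ka : ℝ)
    (inF : Y → C → Prop) (sat : C → X → Prop)
    (hka : 0 ≤ ka) (hK : ∀ a, ∑ x, K a x = Fintype.card X)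
    (hbip : ∀ (f : Y → ℝ) (g : X → ℝ), (∀ a, 0 ≤ f a) → (∀ x, 0 ≤ g x) →
      -(ka * Real.sqrt ((∑ a, f a ^ 2) * ∑ x, g x ^ 2)) ≤ ∑ a, ∑ x, f a * g x * K a x)
    (hbiz : ∀ (c : C) (f : Y → ℝ) (g : X → ℝ), (∀ a, 0 ≤ f a) → (∀ a, f a ≠ 0 → inF a c) →
      (∀ x, g x ≠ 0 → ¬ sat c x) →
      |∑ a, ∑ x, f a * g x * K a x| ≤ ka * Real.sqrt ((∑ a, f a ^ 2) * ∑ x, g x ^ 2))
    (M : ℕ) (A : Finset Y) (J : Y → Finset (Fin M)) (cell : Fin M → Set X)
    (tau : Y → X → ℝ) (ls : Fin M → C → X → ℝ) (de : ℝ) (F : Y → Finset C)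
    (hF : ∀ a c, c ∈ F a ↔ inF a c)
    (hcov : ∀ a ∈ A, ∀ x, ∃ j ∈ J a, x ∈ cell j)
    (hdis : ∀ a ∈ A, ∀ j ∈ J a, ∀ j' ∈ J a, j ≠ j' → Disjoint (cell j) (cell j'))
    (hls1 : ∀ j c, ∀ x ∈ cell j, |ls j c x| ≤ 1)
    (hls0 : ∀ j c, ∀ x ∈ cell j, sat c x → ls j c x ≤ 0)
    (heq : ∀ a ∈ A, ∀ j ∈ J a, ∀ x ∈ cell j, ∑ c ∈ F a, ls j c x - de = tau a x) :
    ∑ a ∈ A, ∑ x, K a x * tau a x ≤ 2 * ka * (Fintype.card C *
      Real.sqrt (M * (A.card * Fintype.card X))) - de * (A.card * Fintype.card X) := by
  classical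
  set ind : Fin M → X → ℝ := fun j x => if x ∈ cell j then 1 else 0 with hind
  set sel : Y → Fin M → ℝ := fun a j => if a ∈ A ∧ j ∈ J a then 1 else 0 with hsel
  set inn : Y → C → ℝ := fun a c => if inF a c then 1 else 0 with hinn
  have ind0 : ∀ j x, 0 ≤ ind j x := fun j x => by
    simp only [hind]; split_ifs <;> norm_num
  have sel0 : ∀ a j, 0 ≤ sel a j := fun a j => by
    simp only [hsel]; split_ifs <;> norm_num
  have inn0 : ∀ a c, 0 ≤ inn a c := fun a c => by
    simp only [hinn]; split_ifs <;> norm_num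
  have inn1 : ∀ a c, inn a c ≤ 1 := fun a c => by
    simp only [hinn]; split_ifs <;> norm_num
  -- the partition
  have hE1 : ∀ a x, ∑ j, sel a j * ind j x = if a ∈ A then 1 else 0 := by
    intro a x
    by_cases ha : a ∈ A
    · obtain ⟨j0, hj0, hx0⟩ := hcov a ha x
      rw [if_pos ha, Finset.sum_eq_single j0]
      · simp only [hsel, hind]
        rw [if_pos ⟨ha, hj0⟩, if_pos hx0, one_mul]
      · intro j _ hj
        simp only [hsel, hind]
        by_cases hjJ : j ∈ J a
        · have hd := hdis a ha j hjJ j0 hj0 hj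
          have hx : x ∉ cell j := fun hx => Set.disjoint_left.1 hd hx hx0
          rw [if_neg hx, mul_zero]
        · rw [if_neg (fun h => hjJ h.2), zero_mul]
      · intro h
        exact absurd (Finset.mem_univ _) h
    · rw [if_neg ha]
      refine Finset.sum_eq_zero fun j _ => ?_
      simp only [hsel]
      rw [if_neg (fun h => ha h.1), zero_mul]
  have hFs : ∀ a j x, ∑ c ∈ F a, ls j c x = ∑ c, inn a c * ls j c x := by
    intro a j x
    have h1 : F a = univ.filter (fun c => inF a c) := by
      ext c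
      simp [hF a c]
    rw [h1, Finset.sum_filter]
    refine Finset.sum_congr rfl fun c _ => ?_
    simp only [hinn]
    split_ifs <;> simp
  have hinnC : ∀ a, ∑ c, inn a c ≤ Fintype.card C := by
    intro a
    calc ∑ c, inn a c ≤ ∑ c : C, (1 : ℝ) := Finset.sum_le_sum fun c _ => inn1 a c
      _ = Fintype.card C := by simp
  have hE2 : ∀ a j x, sel a j * ind j x * de =
      ∑ c, sel a j * inn a c * (ind j x * ls j c x) - sel a j * ind j x * tau a x := by
    intro a j x
    have h1 : ∑ c, sel a j * inn a c * (ind j x * ls j c x) =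
        sel a j * ind j x * ∑ c ∈ F a, ls j c x := by
      rw [hFs, Finset.mul_sum]
      exact Finset.sum_congr rfl fun c _ => by ring
    rw [h1]
    by_cases hs : a ∈ A ∧ j ∈ J a
    · by_cases hx : x ∈ cell j
      · rw [← heq a hs.1 j hs.2 x hx]
        ring
      · have : ind j x = 0 := by simp only [hind]; rw [if_neg hx]
        rw [this]; ring
    · have : sel a j = 0 := by simp only [hsel]; rw [if_neg hs]
      rw [this]; ring
  -- the identity
  have hid : de * (A.card * Fintype.card X) =
      (∑ j, ∑ c, ∑ a, ∑ x, sel a j * inn a c * (ind j x * ls j c x) * K a x) -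
        ∑ a ∈ A, ∑ x, K a x * tau a x := by
    rw [ab_swap (fun _ : Fin M => C)
        (fun j c a x => sel a j * inn a c * (ind j x * ls j c x) * K a x)]
    have h0 : ∑ a ∈ A, ∑ x, K a x * tau a x =
        ∑ a, ∑ x, (if a ∈ A then 1 else 0) * (K a x * tau a x) := by
      have h01 : ∀ a, ∑ x, (if a ∈ A then (1 : ℝ) else 0) * (K a x * tau a x) =
          if a ∈ A then ∑ x, K a x * tau a x else 0 := by
        intro a
        split_ifs
        · exact Finset.sum_congr rfl fun x _ => one_mul _
        · exact Finset.sum_eq_zero fun x _ => zero_mul _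
      rw [Finset.sum_congr rfl fun a _ => h01 a, Finset.sum_ite_mem, Finset.univ_inter]
    rw [h0, ← Finset.sum_sub_distrib]
    have h1 : ∀ a, (∑ x, ∑ j, ∑ c, sel a j * inn a c * (ind j x * ls j c x) * K a x) -
        ∑ x, (if a ∈ A then 1 else 0) * (K a x * tau a x) =
        (if a ∈ A then 1 else 0) * (de * Fintype.card X) := by
      intro a
      rw [← Finset.sum_sub_distrib, ← hK a, Finset.mul_sum, Finset.mul_sum]
      refine Finset.sum_congr rfl fun x _ => ?_
      rw [← hE1 a x, Finset.sum_mul, ← Finset.sum_sub_distrib, Finset.sum_mul]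
      refine Finset.sum_congr rfl fun j _ => ?_
      have h2 := hE2 a j x
      rw [← Finset.sum_mul]
      have h3 : ∑ c, sel a j * inn a c * (ind j x * ls j c x) =
          sel a j * ind j x * de + sel a j * ind j x * tau a x := by linarith
      rw [h3]
      ring
    rw [Finset.sum_congr rfl fun a _ => h1 a, ← Finset.sum_mul]
    have h2 : ∑ a : Y, (if a ∈ A then (1 : ℝ) else 0) = A.card := by
      simp
    rw [h2]
    ring
  -- (I)
  have hI : ∀ j c, ∑ a, ∑ x, sel a j * inn a c * (ind j x * ls j c x) * K a x ≤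
      2 * ka * Real.sqrt ((∑ a, sel a j * inn a c) * ∑ x, ind j x) := by
    intro j c
    set f : Y → ℝ := fun a => sel a j * inn a c with hf
    set g1 : X → ℝ := fun x => if x ∈ cell j ∧ sat c x then -ls j c x else 0 with hg1
    set g2 : X → ℝ := fun x => if x ∈ cell j ∧ ¬ sat c x then ls j c x else 0 with hg2
    have f0 : ∀ a, 0 ≤ f a := fun a => mul_nonneg (sel0 a j) (inn0 a c)
    have hff : ∀ a, f a ^ 2 = f a := by
      intro a
      simp only [hf, hsel, hinn]
      split_ifs <;> norm_num
    have hf2 : ∑ a, f a ^ 2 = ∑ a, f a := Finset.sum_congr rfl fun a _ => hff a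
    have hg : ∀ x, ind j x * ls j c x = -g1 x + g2 x := by
      intro x
      simp only [hind, hg1, hg2]
      by_cases hx : x ∈ cell j
      · by_cases hs : sat c x
        · simp [hx, hs]
        · simp [hx, hs]
      · simp [hx]
    have hsq : ∀ x ∈ cell j, ls j c x ^ 2 ≤ 1 := by
      intro x hx
      have := hls1 j c x hx
      rw [← sq_abs]
      have h0 := abs_nonneg (ls j c x)
      nlinarith
    have hg1s : ∑ x, g1 x ^ 2 ≤ ∑ x, ind j x := by
      refine Finset.sum_le_sum fun x _ => ?_
      simp only [hg1, hind]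
      by_cases hx : x ∈ cell j
      · by_cases hs : sat c x
        · simp only [hx, hs, true_and, if_true]
          have := hsq x hx
          nlinarith
        · simp [hx, hs]
      · simp [hx]
    have hg2s : ∑ x, g2 x ^ 2 ≤ ∑ x, ind j x := by
      refine Finset.sum_le_sum fun x _ => ?_
      simp only [hg2, hind]
      by_cases hx : x ∈ cell j
      · by_cases hs : sat c x
        · simp [hx, hs]
        · simp only [hx, hs, true_and, if_true, not_false_eq_true]
          exact hsq x hx
      · simp [hx]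
    have fs0 : 0 ≤ ∑ a, f a := Finset.sum_nonneg fun a _ => f0 a
    have e1 := hbip f g1 f0 (by
      intro x
      simp only [hg1]
      by_cases hx : x ∈ cell j ∧ sat c x
      · rw [if_pos hx]
        have := hls0 j c x hx.1 hx.2
        linarith
      · rw [if_neg hx])
    have e2 := hbiz c f g2 f0 (by
      intro a ha
      by_contra hc
      apply ha
      simp only [hf, hinn]
      rw [if_neg hc, mul_zero]) (by
      intro x hx
      by_contra hc
      apply hx
      simp only [hg2]
      rw [if_neg (fun h => h.2 hc)])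
    have s1 : Real.sqrt ((∑ a, f a ^ 2) * ∑ x, g1 x ^ 2) ≤
        Real.sqrt ((∑ a, f a) * ∑ x, ind j x) := by
      apply Real.sqrt_le_sqrt
      rw [hf2]
      exact mul_le_mul_of_nonneg_left hg1s fs0
    have s2 : Real.sqrt ((∑ a, f a ^ 2) * ∑ x, g2 x ^ 2) ≤
        Real.sqrt ((∑ a, f a) * ∑ x, ind j x) := by
      apply Real.sqrt_le_sqrt
      rw [hf2]
      exact mul_le_mul_of_nonneg_left hg2s fs0
    have hT : ∑ a, ∑ x, f a * (ind j x * ls j c x) * K a x =
        -(∑ a, ∑ x, f a * g1 x * K a x) + ∑ a, ∑ x, f a * g2 x * K a x := by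
      rw [← Finset.sum_neg_distrib, ← Finset.sum_add_distrib]
      refine Finset.sum_congr rfl fun a _ => ?_
      rw [← Finset.sum_neg_distrib, ← Finset.sum_add_distrib]
      refine Finset.sum_congr rfl fun x _ => ?_
      rw [hg]
      ring
    have e3 := (le_abs_self _).trans e2
    have m1 := mul_le_mul_of_nonneg_left s1 hka
    have m2 := mul_le_mul_of_nonneg_left s2 hka
    have hgoal : ∑ a, ∑ x, f a * (ind j x * ls j c x) * K a x ≤
        2 * ka * Real.sqrt ((∑ a, f a) * ∑ x, ind j x) := by
      rw [hT]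
      linarith
    exact hgoal
  -- sums of the weights
  have hUI : ∑ j, ∑ c, (∑ a, sel a j * inn a c) * ∑ x, ind j x ≤
      Fintype.card C * (A.card * Fintype.card X) := by
    have h1 : ∑ j, ∑ c, (∑ a, sel a j * inn a c) * ∑ x, ind j x =
        ∑ a, ∑ x, ∑ j, ∑ c, sel a j * inn a c * ind j x := by
      rw [← ab_swap (fun _ : Fin M => C) (fun j c a x => sel a j * inn a c * ind j x)]
      refine Finset.sum_congr rfl fun j _ => Finset.sum_congr rfl fun c _ => ?_
      rw [Finset.sum_mul_sum]
    rw [h1]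
    have h2 : ∀ a x, ∑ j, ∑ c, sel a j * inn a c * ind j x ≤
        (if a ∈ A then 1 else 0) * Fintype.card C := by
      intro a x
      have h3 : ∑ j, ∑ c, sel a j * inn a c * ind j x =
          (∑ j, sel a j * ind j x) * ∑ c, inn a c := by
        rw [Finset.sum_mul_sum]
        refine Finset.sum_congr rfl fun j _ => Finset.sum_congr rfl fun c _ => ?_
        ring
      rw [h3, hE1]
      refine mul_le_mul_of_nonneg_left (hinnC a) ?_
      split_ifs <;> norm_num
    calc ∑ a, ∑ x, ∑ j, ∑ c, sel a j * inn a c * ind j x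
        ≤ ∑ a : Y, ∑ x : X, (if a ∈ A then (1 : ℝ) else 0) * Fintype.card C :=
          Finset.sum_le_sum fun a _ => Finset.sum_le_sum fun x _ => h2 a x
      _ = Fintype.card C * (A.card * Fintype.card X) := by
          simp only [Finset.sum_const, Finset.card_univ, nsmul_eq_mul]
          rw [← Finset.mul_sum, ← Finset.sum_mul]
          have h4 : ∑ a : Y, (if a ∈ A then (1 : ℝ) else 0) = A.card := by simp
          rw [h4]
          ring
  -- assembly
  set nn : ℝ := (A.card : ℝ) * Fintype.card X with hnn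
  set cC : ℝ := (Fintype.card C : ℝ) with hcC
  have nn0 : 0 ≤ nn := by positivity
  have cC0 : 0 ≤ cC := by positivity
  have tI : ∑ j, ∑ c, ∑ a, ∑ x, sel a j * inn a c * (ind j x * ls j c x) * K a x ≤
      2 * ka * (cC * Real.sqrt (M * nn)) := by
    calc ∑ j, ∑ c, ∑ a, ∑ x, sel a j * inn a c * (ind j x * ls j c x) * K a x
        ≤ ∑ j, ∑ c, 2 * ka * Real.sqrt ((∑ a, sel a j * inn a c) * ∑ x, ind j x) :=
          Finset.sum_le_sum fun j _ => Finset.sum_le_sum fun c _ => hI j c
      _ = 2 * ka * ∑ q : Fin M × C,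
            Real.sqrt ((∑ a, sel a q.1 * inn a q.2) * ∑ x, ind q.1 x) := by
          rw [Fintype.sum_prod_type, Finset.mul_sum]
          exact Finset.sum_congr rfl fun j _ => (Finset.mul_sum _ _ _).symm
      _ ≤ 2 * ka * Real.sqrt (Fintype.card (Fin M × C) * ∑ q : Fin M × C,
            (∑ a, sel a q.1 * inn a q.2) * ∑ x, ind q.1 x) := by
          refine mul_le_mul_of_nonneg_left (ab_cs _ fun q => ?_) (by positivity)
          exact mul_nonneg (Finset.sum_nonneg fun a _ => mul_nonneg (sel0 _ _) (inn0 _ _))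
            (Finset.sum_nonneg fun x _ => ind0 _ _)
      _ ≤ 2 * ka * (cC * Real.sqrt (M * nn)) := by
          refine mul_le_mul_of_nonneg_left ?_ (by positivity)
          have h5 : ((Fintype.card (Fin M × C) : ℕ) : ℝ) = M * cC := by
            rw [Fintype.card_prod, Fintype.card_fin]
            push_cast
            rfl
          rw [h5]
          have h6 : M * cC * ∑ q : Fin M × C, (∑ a, sel a q.1 * inn a q.2) * ∑ x, ind q.1 x ≤
              cC ^ 2 * (M * nn) := by
            rw [Fintype.sum_prod_type]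
            calc M * cC * ∑ j, ∑ c, (∑ a, sel a j * inn a c) * ∑ x, ind j x
                ≤ M * cC * (cC * nn) := mul_le_mul_of_nonneg_left hUI (by positivity)
              _ = cC ^ 2 * (M * nn) := by ring
          calc Real.sqrt (M * cC * ∑ q : Fin M × C,
                (∑ a, sel a q.1 * inn a q.2) * ∑ x, ind q.1 x)
              ≤ Real.sqrt (cC ^ 2 * (M * nn)) := Real.sqrt_le_sqrt h6
            _ = cC * Real.sqrt (M * nn) := by
                rw [Real.sqrt_mul (by positivity), Real.sqrt_sq cC0]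
  linarith

end Pool.Agent.H70.SDP
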