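import Pool.Agent.H70.SDP.Dual
import Pool.Agent.H70.SDP.Stmt

/-!
# MP_c62aed_lc, semidefinite relaxations: from a refuted family to positive semidefinite matrices
-/

set_option autoImplicit false

namespace Pool.Agent.H70.SDP

open Matrix Finset
open Pool.Agent.H1.LP (Clause viol)

open scoped MatrixOrder in
theorem psd_exists {m : Type} [Fintype m] {B : Matrix m m ℝ} (h : B.PosSemidef) :
    ∃ C : Matrix m m ℝ, B = Cᴴ * C := by
  classical
  exact CStarAlgebra.nonneg_iff_eq_star_mul_self.mp h.nonneg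

theorem trace_fromBlocks' {l m : Type} [Fintype l] [Fintype m] (X : Matrix l l ℝ)
    (Y : Matrix l m ℝ) (Z : Matrix m l ℝ) (W : Matrix m m ℝ) :
    trace (fromBlocks X Y Z W) = trace X + trace W := by
  simp [trace, Fintype.sum_sum_type]

theorem psd_blockDiagonal' {o : Type} [Fintype o] [DecidableEq o] {m : o → Type}
    [∀ i, Fintype (m i)] [∀ i, DecidableEq (m i)] (B : (i : o) → Matrix (m i) (m i) ℝ)
    (h : ∀ i, (B i).PosSemidef) : (blockDiagonal' B).PosSemidef := by
  have h1 : ∀ i, ∃ C : Matrix (m i) (m i) ℝ, B i = Cᴴ * C := fun i => psd_exists (h i)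
  choose C hC using h1
  have h2 : blockDiagonal' B = (blockDiagonal' C)ᴴ * blockDiagonal' C := by
    rw [blockDiagonal'_conjTranspose, ← blockDiagonal'_mul]
    congr 1
    funext i
    exact hC i
  rw [h2]
  exact posSemidef_conjTranspose_mul_self _

theorem psd_fromBlocks {l m : Type} [Fintype l] [DecidableEq l] [Fintype m] [DecidableEq m]
    {X : Matrix l l ℝ} {Y : Matrix m m ℝ} (hX : X.PosSemidef) (hY : Y.PosSemidef) :
    (fromBlocks X 0 0 Y).PosSemidef := by
  obtain ⟨C, rfl⟩ := psd_exists hX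
  obtain ⟨D, rfl⟩ := psd_exists hY
  have h2 : fromBlocks (Cᴴ * C) 0 0 (Dᴴ * D) = (fromBlocks C 0 0 D)ᴴ * fromBlocks C 0 0 D := by
    rw [fromBlocks_conjTranspose, fromBlocks_multiply]
    simp
  rw [h2]
  exact posSemidef_conjTranspose_mul_self _

/-- one relaxation -/
theorem relax_dual {n m : ℕ} (P : SRelax n) (phi : Fin m → Clause n) (de : ℝ)
    (h : P.Refutes phi de) (ε : ℝ) (hε : 0 < ε) :
    ∃ (L : Matrix (Fin P.size) (Fin P.size) ℝ) (c : ℝ), L.PosSemidef ∧ 0 ≤ c ∧
      ∀ x ∈ P.cell, |trace (L * (P.A0 + ∑ k, P.pt x k • P.A k)) + c -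
        (∑ i, P.loss (phi i) (P.pt x) - de)| ≤ ε := by
  classical
  by_cases hne : P.cell.Nonempty
  · obtain ⟨x0, hx0⟩ := hne
    have key : ∀ y : Fin P.dim → ℝ, ∑ i, P.loss (phi i) y - de =
        ∑ k, (∑ i, P.w (phi i) k) * y k + (∑ i, P.w0 (phi i) - de) := by
      intro y
      unfold SRelax.loss
      rw [sum_add_distrib, sum_comm]
      simp only [sum_mul]
      ring
    obtain ⟨L, c, hL, hc, hLc⟩ := dual (X := {x // x ∈ P.cell}) P.herm0 P.herm
      (fun x => P.pt x.1) (P.pt x0) (P.feas x0 hx0) (fun k => ∑ i, P.w (phi i) k)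
      (∑ i, P.w0 (phi i) - de) (fun y hy => by
        rw [← key]
        have := h y hy
        linarith) ε hε
    refine ⟨L, c, hL, hc, fun x hx => ?_⟩
    rw [key]
    exact hLc ⟨x, hx⟩
  · refine ⟨0, 0, PosSemidef.zero, le_refl _, fun x hx => ?_⟩
    exact absurd ⟨x, hx⟩ hne

section family

variable {n M : ℕ} (P : Fin M → SRelax n)

/-- the index type of the block matrices of a family -/
abbrev Idx : Type := (Σ j : Fin M, Fin (P j).size) ⊕ Fin M

theorem card_Idx : (Fintype.card (Idx P) : ℝ) = ∑ j, (((P j).size : ℝ) + 1) := by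
  unfold Idx
  rw [Fintype.card_sum, Fintype.card_sigma]
  simp [sum_add_distrib]

open Classical in
/-- the block matrix of an assignment -/
noncomputable def SX (x : Fin n → Bool) : Matrix (Idx P) (Idx P) ℝ :=
  fromBlocks
    (blockDiagonal' (m' := fun j => Fin (P j).size) (n' := fun j => Fin (P j).size) fun j =>
      if x ∈ (P j).cell then (P j).A0 + ∑ k, (P j).pt x k • (P j).A k else 0) 0 0
    (diagonal fun j => if x ∈ (P j).cell then 1 else 0)

theorem SX_psd (x : Fin n → Bool) : (SX P x).PosSemidef := by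
  classical
  unfold SX
  refine psd_fromBlocks (psd_blockDiagonal' _ fun j => ?_) ?_
  · split_ifs with h
    · exact (P j).feas x h
    · exact PosSemidef.zero
  · rw [posSemidef_diagonal_iff]
    intro j
    split_ifs <;> norm_num

/-- FAMILY: from a refuted formula to a positive semidefinite matrix -/
theorem family_dual {m : ℕ} (phi : Fin m → Clause n) (de : ℝ) (J : Finset (Fin M))
    (hJd : ∀ j ∈ J, ∀ j' ∈ J, j ≠ j' → Disjoint (P j).cell (P j').cell)
    (hJ : ∀ j ∈ J, (P j).Refutes phi de) (ε : ℝ) (hε : 0 < ε) :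
    ∃ L : Matrix (Idx P) (Idx P) ℝ, L.PosSemidef ∧ ∀ j ∈ J, ∀ x ∈ (P j).cell,
      |trace (L * SX P x) - (∑ i, (P j).loss (phi i) ((P j).pt x) - de)| ≤ ε := by
  classical
  have h1 : ∀ j, ∃ (L : Matrix (Fin (P j).size) (Fin (P j).size) ℝ) (c : ℝ), L.PosSemidef ∧
      0 ≤ c ∧ (j ∈ J → ∀ x ∈ (P j).cell,
        |trace (L * ((P j).A0 + ∑ k, (P j).pt x k • (P j).A k)) + c -
          (∑ i, (P j).loss (phi i) ((P j).pt x) - de)| ≤ ε) ∧ (j ∉ J → L = 0 ∧ c = 0) := by
    intro j
    by_cases hj : j ∈ J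
    · obtain ⟨L, c, h2, h3, h4⟩ := relax_dual (P j) phi de (hJ j hj) ε hε
      exact ⟨L, c, h2, h3, fun _ => h4, fun h => absurd hj h⟩
    · exact ⟨0, 0, PosSemidef.zero, le_refl _, fun h => absurd h hj, fun _ => ⟨rfl, rfl⟩⟩
  choose L c hL hc hLc h0 using h1
  refine ⟨fromBlocks (blockDiagonal' L) 0 0 (diagonal c),
    psd_fromBlocks (psd_blockDiagonal' _ hL) (posSemidef_diagonal_iff.2 hc), fun j hj x hx => ?_⟩
  have h2 : trace (fromBlocks (blockDiagonal' L) 0 0 (diagonal c) * SX P x) =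
      trace (L j * ((P j).A0 + ∑ k, (P j).pt x k • (P j).A k)) + c j := by
    unfold SX
    rw [fromBlocks_multiply, trace_fromBlocks']
    simp only [Matrix.mul_zero, add_zero, Matrix.zero_mul, zero_add]
    rw [← blockDiagonal'_mul, trace_blockDiagonal', diagonal_mul_diagonal, trace_diagonal]
    have h3 : ∀ i, i ≠ j → i ∈ J → x ∉ (P i).cell := by
      intro i hij hi hxi
      exact Finset.disjoint_left.1 (hJd i hi j hj hij) hxi hx
    congr 1
    · rw [sum_eq_single j]
      · rw [if_pos hx]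
      · intro i _ hij
        by_cases hi : i ∈ J
        · rw [if_neg (h3 i hij hi), mul_zero, trace_zero]
        · rw [(h0 i hi).1, zero_mul, trace_zero]
      · intro h
        exact absurd (mem_univ _) h
    · rw [sum_eq_single j]
      · rw [if_pos hx, mul_one]
      · intro i _ hij
        by_cases hi : i ∈ J
        · rw [if_neg (h3 i hij hi), mul_zero]
        · rw [(h0 i hi).2, zero_mul]
      · intro h
        exact absurd (mem_univ _) h
  rw [h2]
  exact hLc j hj x hx

end family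

end Pool.Agent.H70.SDP
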