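import Pool.Agent.H49.SDP.Main

/-!
# MP_c62aed_lc, semidefinite relaxations: the lower bound for the order, abstract form
(the proofs are those of helper49 in `Pool.Agent.H49.SDP.Core` and `Pool.Agent.H49.SDP.Main`)
-/

set_option autoImplicit false

namespace Pool.Agent.H70.SDP

open Matrix Pool.Agent.H49.SDP

section

variable {H B Sg J : Type} [Fintype H] [Fintype B] [Fintype Sg] [DecidableEq Sg] [DecidableEq H]
  [Fintype J] [DecidableEq J]

variable {ι : Type} [Fintype ι]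

/-- the main estimate, normalised, abstract form -/
theorem core_norm2 [Nonempty Sg] [Nonempty H] [Nonempty B] (Φ : Bas Sg J) {s : ℝ} (hs1 : 1 ≤ s)
    (hh : Hsh H B Sg) (hsH : (s - 1) ^ 2 * (Fintype.card Sg : ℝ) ≤ 2 * Fintype.card H)
    (hQs : (Fintype.card Sg : ℝ) ≤ s ^ 2) {N t : ℕ} {Mx m δ : ℝ} (hMx : 1 ≤ Mx) (hδ : 0 < δ)
    (hδm : δ ≤ m) (D : (Fin N → Sg) → ℝ)
    (hDM : ∀ z, |D z| ≤ Mx)
    (hDp : ∀ c : (Fin N → J) → ℝ, (∀ κ, t ≤ lv Φ κ → c κ = 0) →
      0 ≤ ∑ z, D z * (∑ κ, c κ * Psi Φ s κ z) ^ 2)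
    [DecidableEq ι] (A : Finset (Fin N → H)) (L : (Fin N → H) → Matrix ι ι ℝ)
    (S : (Fin N → B) → Matrix ι ι ℝ) (hL : ∀ a, (L a).PosSemidef) (hS : ∀ b, (S b).PosSemidef)
    (hS1 : ∑ b, S b = ((Fintype.card B : ℝ) ^ N) • (1 : Matrix ι ι ℝ))
    (hLm : ∀ a ∈ A, ∀ b, (L a * S b).trace ≤ m)
    (hcor : ∑ b, ∑ a ∈ A, D (apv hh a b) * (S b * L a).trace ≤
      -(3 / 4) * δ * (Fintype.card B : ℝ) ^ N * A.card) :
    δ ^ 5 * A.card * s ^ (2 * t) ≤ 1600 * (Fintype.card ι : ℝ) ^ 2 * Mx ^ 5 * m ^ 5 * 8 ^ N *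
      (Fintype.card Sg : ℝ) ^ t * (Fintype.card H : ℝ) ^ N := by
  have hQ := card_pos (Sg := Sg)
  have hH := card_pos (Sg := H)
  have hB : 0 < (Fintype.card B : ℝ) := by exact_mod_cast Fintype.card_pos
  have hs0 : 0 < s := by linarith
  have hm : 0 < m := by linarith
  have hM0 : 0 < Mx := by linarith
  obtain ⟨Q, hQd⟩ : ∃ Q : ℝ, Q = Fintype.card Sg := ⟨_, rfl⟩
  obtain ⟨h, hHd⟩ : ∃ h : ℝ, h = Fintype.card H := ⟨_, rfl⟩
  obtain ⟨β, hBd⟩ : ∃ β : ℝ, β = Fintype.card B := ⟨_, rfl⟩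
  obtain ⟨R, hRd⟩ : ∃ R : ℝ, R = Fintype.card ι := ⟨_, rfl⟩
  rw [← hQd] at hsH hQs hQ
  rw [← hHd] at hsH hH
  rw [← hBd] at hS1 hB hcor
  rw [← hQd, ← hHd, ← hRd]
  have hR0 : 0 ≤ R := by rw [hRd]; positivity
  -- (1) the traces of `L a`
  have hLtr : ∀ a ∈ A, (L a).trace ≤ m := by
    intro a ha
    have e1 : β ^ N * (L a).trace = ∑ b, (L a * S b).trace := by
      rw [← Matrix.trace_sum, ← Finset.mul_sum, hS1, Matrix.mul_smul, Matrix.mul_one,
        Matrix.trace_smul, smul_eq_mul]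
    have e2 : ∑ b, (L a * S b).trace ≤ ∑ b : Fin N → B, m := by
      exact Finset.sum_le_sum fun b _ => hLm a ha b
    rw [Finset.sum_const, Finset.card_univ, Fintype.card_pi_const, nsmul_eq_mul,
      Nat.cast_pow, ← hBd, ← e1] at e2
    exact le_of_mul_le_mul_left e2 (by positivity)
  obtain ⟨f, hf⟩ : ∃ f : (Fin N → H) → Matrix ι ι ℝ, f = fun a => if a ∈ A then L a else 0 :=
    ⟨_, rfl⟩
  have hfp : ∀ a, (f a).PosSemidef := by
    intro a
    rw [hf]
    dsimp only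
    split_ifs
    · exact hL a
    · exact Matrix.PosSemidef.zero
  have hfA : ∀ F : Matrix ι ι ℝ → ℝ, F 0 = 0 → ∑ a, F (f a) = ∑ a ∈ A, F (L a) := by
    intro F hF
    rw [← Finset.sum_filter_add_sum_filter_not Finset.univ (fun a => a ∈ A)]
    rw [Finset.sum_eq_zero (s := Finset.univ.filter fun a => ¬ a ∈ A), add_zero]
    · have : Finset.univ.filter (fun a => a ∈ A) = A := by
        ext a; simp
      rw [this]
      refine Finset.sum_congr rfl fun a ha => ?_
      rw [hf]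
      dsimp only
      rw [if_pos ha]
    · intro a ha
      rw [hf]
      dsimp only
      rw [if_neg (Finset.mem_filter.1 ha).2, hF]
  obtain ⟨G, hGp, hGv, hGs⟩ := rec_main Φ hs1 hh (by rw [← hQd, ← hHd]; exact hsH) N ι f hfp
  rw [← hHd, ← hBd] at hGs
  -- (2) Hilbert-Schmidt norm of `f`
  have hfs : ∑ a, hs (f a) ≤ A.card * m ^ 2 := by
    rw [hfA hs (by simp [hs])]
    refine (Finset.sum_le_sum (g := fun _ => m ^ 2) fun a ha => ?_).trans (le_of_eq ?_)
    · refine (hs_le_trace_sq (hL a)).trans ?_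
      exact pow_le_pow_left₀ (trace_nonneg (hL a)) (hLtr a ha) 2
    · rw [Finset.sum_const, nsmul_eq_mul]
  -- (3) the cut
  obtain ⟨k0, hk0⟩ : ∃ k0, k0 = 4 * Mx * m / δ := ⟨_, rfl⟩
  have hk0p : 0 < k0 := by rw [hk0]; positivity
  have hStr : ∑ b, (S b).trace = β ^ N * R := by
    rw [← Matrix.trace_sum, hS1, Matrix.trace_smul, Matrix.trace_one, smul_eq_mul, hRd]
  obtain ⟨T, hT⟩ : ∃ T : (Fin N → B) → Matrix ι ι ℝ, T = fun b =>
    if (S b).trace ≤ R * k0 then S b else 0 := ⟨_, rfl⟩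
  have hTp : ∀ b, (T b).PosSemidef := by
    intro b
    rw [hT]
    dsimp only
    split_ifs
    · exact hS b
    · exact Matrix.PosSemidef.zero
  have hTtr : ∀ b, (T b).trace ≤ R * k0 := by
    intro b
    rw [hT]
    dsimp only
    split_ifs with hb
    · exact hb
    · rw [Matrix.trace_zero]; positivity
  have hTS : ∀ b, ∀ X : Matrix ι ι ℝ, X.PosSemidef → (T b * X).trace ≤ (S b * X).trace := by
    intro b X hX
    rw [hT]
    dsimp only
    split_ifs
    · exact le_rfl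
    · rw [Matrix.zero_mul, Matrix.trace_zero]
      exact trace_mul_nonneg (hS b) hX
  have hTS1 : ∀ b, (T b).trace ≤ (S b).trace := by
    intro b
    have := hTS b 1 Matrix.PosSemidef.one
    rwa [Matrix.mul_one, Matrix.mul_one] at this
  have hTs : ∑ b, hs (T b) ≤ R ^ 2 * k0 * β ^ N := by
    have e1 : ∀ b, hs (T b) ≤ R * k0 * (S b).trace := by
      intro b
      refine (hs_le_trace_sq (hTp b)).trans ?_
      rw [sq]
      exact mul_le_mul (hTtr b) (hTS1 b) (trace_nonneg (hTp b)) (by positivity)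
    refine (Finset.sum_le_sum fun b _ => e1 b).trans (le_of_eq ?_)
    rw [← Finset.mul_sum, hStr]
    ring
  -- the set of cut values
  obtain ⟨C, hC⟩ : ∃ C : Finset (Fin N → B), C = Finset.univ.filter fun b =>
    ¬ (S b).trace ≤ R * k0 := ⟨_, rfl⟩
  have hCc : (C.card : ℝ) * k0 ≤ β ^ N := by
    rcases hR0.eq_or_lt with hR | hR
    · have hCe : C = ∅ := by
        rw [hC, Finset.filter_eq_empty_iff]
        intro b _ hb
        apply hb
        have hι : IsEmpty ι := by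
          rw [← Fintype.card_eq_zero_iff]
          have : (Fintype.card ι : ℝ) = 0 := by rw [← hRd, ← hR]
          exact_mod_cast this
        rw [← hR, zero_mul]
        unfold Matrix.trace
        rw [Finset.univ_eq_empty, Finset.sum_empty]
      rw [hCe, Finset.card_empty, Nat.cast_zero, zero_mul]
      positivity
    · have e1 : (C.card : ℝ) * (R * k0) ≤ ∑ b, (S b).trace := by
        have e2 : ∑ b ∈ C, R * k0 ≤ ∑ b ∈ C, (S b).trace := by
          refine Finset.sum_le_sum fun b hb => ?_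
          rw [hC, Finset.mem_filter] at hb
          exact (not_le.1 hb.2).le
        rw [Finset.sum_const, nsmul_eq_mul] at e2
        exact e2.trans (Finset.sum_le_sum_of_subset_of_nonneg (Finset.subset_univ _)
          fun b _ _ => trace_nonneg (hS b))
      rw [hStr] at e1
      have e3 : R * ((C.card : ℝ) * k0) ≤ R * β ^ N := by linarith
      exact le_of_mul_le_mul_left e3 hR
  -- (4) the correlation with `D`
  have hcorS : ∑ b, ∑ a ∈ A, D (apv hh a b) * (S b * L a).trace ≤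
      -(3 / 4) * δ * β ^ N * A.card := hcor
  have hcut : ∑ b ∈ C, ∑ a ∈ A, -(D (apv hh a b) * (S b * L a).trace) ≤
      Mx * m * A.card * C.card := by
    have e1 : ∀ b ∈ C, ∑ a ∈ A, -(D (apv hh a b) * (S b * L a).trace) ≤ A.card * (Mx * m) := by
      intro b _
      have e2 : ∀ a ∈ A, -(D (apv hh a b) * (S b * L a).trace) ≤ Mx * m := by
        intro a ha
        have e3 : 0 ≤ (S b * L a).trace := trace_mul_nonneg (hS b) (hL a)
        have e4 : (S b * L a).trace ≤ m := by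
          rw [Matrix.trace_mul_comm]
          exact hLm a ha b
        have e5 := (abs_le.1 (hDM (apv hh a b))).1
        have e6 : -D (apv hh a b) ≤ Mx := by linarith
        calc -(D (apv hh a b) * (S b * L a).trace) = -D (apv hh a b) * (S b * L a).trace := by ring
          _ ≤ Mx * (S b * L a).trace := mul_le_mul_of_nonneg_right e6 e3
          _ ≤ Mx * m := mul_le_mul_of_nonneg_left e4 hM0.le
      refine (Finset.sum_le_sum e2).trans (le_of_eq ?_)
      rw [Finset.sum_const, nsmul_eq_mul]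
    refine (Finset.sum_le_sum e1).trans (le_of_eq ?_)
    rw [Finset.sum_const, nsmul_eq_mul]
    ring
  have hcorT : ∑ b, ∑ a, D (apv hh a b) * (T b * f a).trace ≤ -(1 / 2) * δ * β ^ N * A.card := by
    have e1 : ∀ b, ∑ a, D (apv hh a b) * (T b * f a).trace =
        ∑ a ∈ A, D (apv hh a b) * (T b * L a).trace := by
      intro b
      rw [← Finset.sum_filter_add_sum_filter_not Finset.univ (fun a => a ∈ A)]
      rw [Finset.sum_eq_zero (s := Finset.univ.filter fun a => ¬ a ∈ A), add_zero]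
      · have : Finset.univ.filter (fun a => a ∈ A) = A := by
          ext a; simp
        rw [this]
        refine Finset.sum_congr rfl fun a ha => ?_
        rw [hf]
        dsimp only
        rw [if_pos ha]
      · intro a ha
        rw [hf]
        dsimp only
        rw [if_neg (Finset.mem_filter.1 ha).2, Matrix.mul_zero, Matrix.trace_zero, mul_zero]
    have e2 : ∑ b, ∑ a, D (apv hh a b) * (T b * f a).trace =
        ∑ b, ∑ a ∈ A, D (apv hh a b) * (S b * L a).trace +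
        ∑ b ∈ C, ∑ a ∈ A, -(D (apv hh a b) * (S b * L a).trace) := by
      have e3 : ∑ b ∈ C, ∑ a ∈ A, -(D (apv hh a b) * (S b * L a).trace) =
          ∑ b, if ¬ (S b).trace ≤ R * k0 then
            ∑ a ∈ A, -(D (apv hh a b) * (S b * L a).trace) else 0 := by
        rw [hC, Finset.sum_filter]
      rw [e3, ← Finset.sum_add_distrib]
      refine Finset.sum_congr rfl fun b _ => ?_
      rw [e1, hT]
      dsimp only
      by_cases hb : (S b).trace ≤ R * k0
      · rw [if_pos hb, if_neg (not_not.2 hb), add_zero]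
      · rw [if_neg hb, if_pos hb, ← Finset.sum_add_distrib]
        refine Finset.sum_congr rfl fun a _ => ?_
        rw [Matrix.zero_mul, Matrix.trace_zero]
        ring
    rw [e2]
    have e4 : Mx * m * A.card * C.card ≤ (1 / 4) * δ * β ^ N * A.card := by
      have e5 : Mx * m * (C.card : ℝ) ≤ (1 / 4) * δ * β ^ N := by
        rw [hk0] at hCc
        have e6 : (C.card : ℝ) * (4 * Mx * m / δ) = (4 * (Mx * m * C.card)) / δ := by ring
        rw [e6, div_le_iff₀ hδ] at hCc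
        linarith
      have hA0 : (0 : ℝ) ≤ A.card := Nat.cast_nonneg _
      nlinarith
    have hA0 : (0 : ℝ) ≤ A.card := Nat.cast_nonneg _
    have hβ : 0 < β ^ N := by positivity
    have := hcut
    linarith
  -- (5) the quadratic estimate
  obtain ⟨τ, hτd⟩ : ∃ τ, τ = δ / (4 * Mx * m) := ⟨_, rfl⟩
  have hτ : 0 < τ := by rw [hτd]; positivity
  obtain ⟨p, hp⟩ : ∃ p : (Fin N → B) → ℝ, p = fun b =>
    ∑ κ, if t ≤ lv Φ κ then 0 else ptr (T b) (G b) κ κ / s ^ lv Φ κ := ⟨_, rfl⟩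
  obtain ⟨q, hq⟩ : ∃ q : (Fin N → B) → ℝ, q = fun b =>
    ∑ κ, if t ≤ lv Φ κ then ptr (T b) (G b) κ κ / s ^ lv Φ κ else 0 := ⟨_, rfl⟩
  have hgp : ∀ b, (ptr (T b) (G b)).PosSemidef := fun b => ptr_psd (hTp b) (hGp b)
  have hVT : ∀ b z, (T b * Vb hh f b z).trace =
      ∑ κ, ∑ κ', Psi Φ s κ z * Psi Φ s κ' z * ptr (T b) (G b) κ κ' :=
    fun b z => trace_Vb_psi Φ s (T b) (Vb hh f b z) (G b) z (fun i j => hGv b z i j)
  have hquad : ∀ b, -(Mx * Q ^ N * (τ * p b + (1 + 1 / τ) * q b)) ≤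
      (Q / h) ^ N * ∑ a, D (apv hh a b) * (T b * f a).trace := by
    intro b
    have e1 := quad Φ hs0 hτ D hDM hDp (ptr (T b) (G b)) (hgp b)
    have e2 := sum_D_trace_Vb hh f (T b) b D
    rw [Finset.sum_congr rfl fun z _ => by rw [hVT b z]] at e2
    rw [e2, ← hQd, ← hHd] at e1
    rw [hp, hq]
    exact e1
  have hpb : ∀ b, Q ^ N * p b ≤ (Q / h) ^ N * ∑ a, (S b * f a).trace := by
    intro b
    have e1 : Q ^ N * p b ≤ ∑ z, (T b * Vb hh f b z).trace := by
      have e2 : ∑ z, (T b * Vb hh f b z).trace = ∑ κ, Q ^ N * (ptr (T b) (G b) κ κ / s ^ lv Φ κ)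
          := by
        rw [Finset.sum_congr rfl fun z _ => hVT b z, Finset.sum_comm]
        refine Finset.sum_congr rfl fun κ _ => ?_
        rw [Finset.sum_comm]
        have e3 : ∀ κ', ∑ z, Psi Φ s κ z * Psi Φ s κ' z * ptr (T b) (G b) κ κ' =
            if κ = κ' then Q ^ N * (ptr (T b) (G b) κ κ' / s ^ lv Φ κ) else 0 := by
          intro κ'
          rw [← Finset.sum_mul, Psi_orth Φ hs0, ← hQd]
          split_ifs <;> ring
        rw [Finset.sum_congr rfl fun κ' _ => e3 κ', Finset.sum_ite_eq Finset.univ κ,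
          if_pos (Finset.mem_univ _)]
      rw [e2, hp]
      dsimp only
      rw [Finset.mul_sum]
      refine Finset.sum_le_sum fun κ _ => ?_
      split_ifs
      · rw [mul_zero]
        have := (hgp b).diag_nonneg (i := κ)
        positivity
      · exact le_rfl
    refine e1.trans ?_
    have e4 := sum_D_trace_Vb hh f (T b) b (fun _ => 1)
    simp only [one_mul] at e4
    rw [e4, ← hQd, ← hHd]
    refine mul_le_mul_of_nonneg_left (Finset.sum_le_sum fun a _ => hTS b _ (hfp a)) ?_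
    positivity
  have hSf : ∑ b, ∑ a, (S b * f a).trace ≤ β ^ N * (A.card * m) := by
    rw [Finset.sum_comm]
    have e1 : ∀ a, ∑ b, (S b * f a).trace = β ^ N * (f a).trace := by
      intro a
      rw [← Matrix.trace_sum, ← Finset.sum_mul, hS1, Matrix.smul_mul, Matrix.one_mul,
        Matrix.trace_smul, smul_eq_mul]
    rw [Finset.sum_congr rfl fun a _ => e1 a, ← Finset.mul_sum,
      hfA Matrix.trace (Matrix.trace_zero _ _)]
    refine mul_le_mul_of_nonneg_left ?_ (by positivity)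
    refine (Finset.sum_le_sum fun a ha => hLtr a ha).trans (le_of_eq ?_)
    rw [Finset.sum_const, nsmul_eq_mul]
  have hpsum : h ^ N * ∑ b, p b ≤ β ^ N * (A.card * m) := by
    have e1 : Q ^ N * ∑ b, p b ≤ (Q / h) ^ N * ∑ b, ∑ a, (S b * f a).trace := by
      rw [Finset.mul_sum, Finset.mul_sum]
      exact Finset.sum_le_sum fun b _ => hpb b
    have e2 : Q ^ N * ∑ b, p b ≤ (Q / h) ^ N * (β ^ N * (A.card * m)) :=
      e1.trans (mul_le_mul_of_nonneg_left hSf (by positivity))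
    have e3 : Q ^ N * (h ^ N * ∑ b, p b) ≤ Q ^ N * (β ^ N * (A.card * m)) := by
      have e4 := mul_le_mul_of_nonneg_left e2 (by positivity : (0 : ℝ) ≤ h ^ N)
      refine le_trans (le_of_eq ?_) (e4.trans (le_of_eq ?_))
      · ring
      · rw [div_pow]
        field_simp
    exact le_of_mul_le_mul_left e3 (by positivity)
  -- (6) the lower bound for the sum of `q`
  have hqlow : δ ^ 2 * A.card * β ^ N ≤ 20 * Mx ^ 2 * m * (h ^ N * ∑ b, q b) := by
    have e1 : -(Mx * Q ^ N * (τ * ∑ b, p b + (1 + 1 / τ) * ∑ b, q b)) ≤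
        (Q / h) ^ N * (-(1 / 2) * δ * β ^ N * A.card) := by
      have e2 : ∑ b, -(Mx * Q ^ N * (τ * p b + (1 + 1 / τ) * q b)) ≤
          ∑ b, (Q / h) ^ N * ∑ a, D (apv hh a b) * (T b * f a).trace :=
        Finset.sum_le_sum fun b _ => hquad b
      have e3 : ∑ b, -(Mx * Q ^ N * (τ * p b + (1 + 1 / τ) * q b)) =
          -(Mx * Q ^ N * (τ * ∑ b, p b + (1 + 1 / τ) * ∑ b, q b)) := by
        rw [Finset.sum_neg_distrib, ← Finset.mul_sum, Finset.sum_add_distrib, ← Finset.mul_sum,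
          ← Finset.mul_sum]
      rw [e3, ← Finset.mul_sum] at e2
      exact e2.trans (mul_le_mul_of_nonneg_left hcorT (by positivity))
    have e4 : Q ^ N * (1 / 2 * δ * β ^ N * A.card) ≤
        Q ^ N * (Mx * (τ * (h ^ N * ∑ b, p b) + (1 + 1 / τ) * (h ^ N * ∑ b, q b))) := by
      have e5 := mul_le_mul_of_nonneg_left e1 (by positivity : (0 : ℝ) ≤ h ^ N)
      have e6 : h ^ N * ((Q / h) ^ N * (-(1 / 2) * δ * β ^ N * A.card)) =
          -(Q ^ N * (1 / 2 * δ * β ^ N * A.card)) := by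
        rw [div_pow]
        field_simp
      rw [e6] at e5
      linarith
    have e7 := le_of_mul_le_mul_left e4 (by positivity)
    have e8 : Mx * (τ * (h ^ N * ∑ b, p b)) ≤ 1 / 4 * δ * β ^ N * A.card := by
      have e9 := mul_le_mul_of_nonneg_left hpsum (by positivity : (0 : ℝ) ≤ Mx * τ)
      have e10 : Mx * τ * (β ^ N * (A.card * m)) = 1 / 4 * δ * β ^ N * A.card := by
        rw [hτd]
        field_simp
      rw [e10] at e9
      linarith
    have e11 : 1 / 4 * δ * β ^ N * A.card ≤ Mx * (1 + 1 / τ) * (h ^ N * ∑ b, q b) := by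
      linarith
    have hq0 : 0 ≤ h ^ N * ∑ b, q b := by
      refine mul_nonneg (by positivity) (Finset.sum_nonneg fun b _ => ?_)
      rw [hq]
      refine Finset.sum_nonneg fun κ _ => ?_
      split_ifs
      · have := (hgp b).diag_nonneg (i := κ)
        positivity
      · exact le_rfl
    have e12 : δ * (1 + 1 / τ) ≤ 5 * Mx * m := by
      have : 1 / τ = 4 * Mx * m / δ := by rw [hτd, one_div_div]
      rw [this]
      have : δ * (1 + 4 * Mx * m / δ) = δ + 4 * Mx * m := by field_simp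
      rw [this]
      nlinarith
    have e13 := mul_le_mul_of_nonneg_left e11 (by positivity : (0 : ℝ) ≤ 4 * δ)
    have e14 := mul_le_mul_of_nonneg_right e12
      (mul_nonneg (by positivity : (0 : ℝ) ≤ 4 * Mx) hq0)
    have e15 : 4 * δ * (Mx * (1 + 1 / τ) * (h ^ N * ∑ b, q b)) =
        δ * (1 + 1 / τ) * (4 * Mx * (h ^ N * ∑ b, q b)) := by ring
    rw [e15] at e13
    have e16 := e13.trans e14
    linarith
  -- (7) the upper bound
  have hqup : (∑ b, q b) ^ 2 ≤ (R ^ 2 * k0 * β ^ N) *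
      (2 ^ N * (Q / s ^ 2) ^ t * ∑ b, hs (G b)) := by
    have e1 : ∀ b, q b = (T b * Ght Φ s t (G b)).trace := by
      intro b
      rw [hq, trace_Ght]
    have e2 : (∑ b, q b) ^ 2 ≤ (∑ b, hs (T b)) * ∑ b, hs (Ght Φ s t (G b)) := by
      refine Finset.sum_sq_le_sum_mul_sum_of_sq_le_mul _ (fun b _ => hs_nonneg _)
        (fun b _ => hs_nonneg _) fun b _ => ?_
      rw [e1]
      exact trace_mul_sq_le _ _
    refine e2.trans ?_
    refine mul_le_mul hTs ?_ (Finset.sum_nonneg fun b _ => hs_nonneg _) (by positivity)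
    rw [Finset.mul_sum]
    refine Finset.sum_le_sum fun b _ => ?_
    have := hs_Ght_le Φ hs0 (by rw [← hQd]; exact hQs) t (G b)
    rw [← hQd] at this
    exact this
  have hGs2 : h ^ N * ∑ b, hs (G b) ≤ 4 ^ N * β ^ N * (A.card * m ^ 2) :=
    hGs.trans (mul_le_mul_of_nonneg_left hfs (by positivity))
  -- (8) conclusion
  rcases Nat.eq_zero_or_pos A.card with hA | hA
  · rw [hA, Nat.cast_zero, mul_zero, zero_mul]
    positivity
  have hA' : (0 : ℝ) < A.card := by exact_mod_cast hA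
  have e1 : (δ ^ 2 * A.card * β ^ N) ^ 2 ≤ (20 * Mx ^ 2 * m * (h ^ N * ∑ b, q b)) ^ 2 :=
    pow_le_pow_left₀ (by positivity) hqlow 2
  have e2 : (20 * Mx ^ 2 * m * (h ^ N * ∑ b, q b)) ^ 2 ≤
      (20 * Mx ^ 2 * m) ^ 2 * (h ^ N) ^ 2 * ((R ^ 2 * k0 * β ^ N) *
      (2 ^ N * (Q / s ^ 2) ^ t * ∑ b, hs (G b))) := by
    have := mul_le_mul_of_nonneg_left hqup
      (by positivity : (0 : ℝ) ≤ (20 * Mx ^ 2 * m) ^ 2 * (h ^ N) ^ 2)
    refine le_trans (le_of_eq ?_) this
    ring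
  have e3 : (20 * Mx ^ 2 * m) ^ 2 * (h ^ N) ^ 2 * ((R ^ 2 * k0 * β ^ N) *
      (2 ^ N * (Q / s ^ 2) ^ t * ∑ b, hs (G b))) ≤
      (20 * Mx ^ 2 * m) ^ 2 * h ^ N * ((R ^ 2 * k0 * β ^ N) *
      (2 ^ N * (Q / s ^ 2) ^ t)) * (4 ^ N * β ^ N * (A.card * m ^ 2)) := by
    have := mul_le_mul_of_nonneg_left hGs2
      (by positivity : (0 : ℝ) ≤ (20 * Mx ^ 2 * m) ^ 2 * h ^ N * ((R ^ 2 * k0 * β ^ N) *
      (2 ^ N * (Q / s ^ 2) ^ t)))
    refine le_trans (le_of_eq ?_) this
    ring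
  have e4 := (e1.trans e2).trans e3
  have h8 : (8 : ℝ) ^ N = 2 ^ N * 4 ^ N := by rw [← mul_pow]; norm_num
  have e5 : (20 * Mx ^ 2 * m) ^ 2 * h ^ N * ((R ^ 2 * k0 * β ^ N) *
      (2 ^ N * (Q / s ^ 2) ^ t)) * (4 ^ N * β ^ N * (A.card * m ^ 2)) =
      (A.card * (β ^ N) ^ 2 / (δ * s ^ (2 * t))) *
      (1600 * R ^ 2 * Mx ^ 5 * m ^ 5 * 8 ^ N * Q ^ t * h ^ N) := by
    rw [hk0, h8, div_pow, pow_mul]
    field_simp
    ring
  have e6 : (δ ^ 2 * A.card * β ^ N) ^ 2 = (A.card * (β ^ N) ^ 2 / (δ * s ^ (2 * t))) *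
      (δ ^ 5 * A.card * s ^ (2 * t)) := by
    field_simp
  rw [e5, e6] at e4
  exact le_of_mul_le_mul_left e4 (by positivity)

/-- the main estimate, abstract form -/
theorem core_main2 [Nonempty Sg] [Nonempty H] [Nonempty B] (Φ : Bas Sg J) {s : ℝ} (hs1 : 1 ≤ s)
    (hh : Hsh H B Sg) (hsH : (s - 1) ^ 2 * (Fintype.card Sg : ℝ) ≤ 2 * Fintype.card H)
    (hQs : (Fintype.card Sg : ℝ) ≤ s ^ 2) {N t : ℕ} {Mx m δ : ℝ} (hMx : 1 ≤ Mx) (hδ : 0 < δ)
    (hδm : δ ≤ m) (D : (Fin N → Sg) → ℝ)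
    (hDM : ∀ z, |D z| ≤ Mx)
    (hDp : ∀ c : (Fin N → J) → ℝ, (∀ κ, t ≤ lv Φ κ → c κ = 0) →
      0 ≤ ∑ z, D z * (∑ κ, c κ * ∏ i, Φ.φ (κ i) (z i)) ^ 2)
    (A : Finset (Fin N → H)) (L : (Fin N → H) → Matrix ι ι ℝ)
    (S : (Fin N → B) → Matrix ι ι ℝ) (hL : ∀ a, (L a).PosSemidef) (hS : ∀ b, (S b).PosSemidef)
    (hLm : ∀ a ∈ A, ∀ b, (L a * S b).trace ≤ m)
    (hcor : ∑ a ∈ A, ∑ b, D (apv hh a b) * (L a * S b).trace ≤
      -(δ * (A.card * (Fintype.card B : ℝ) ^ N))) :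
    δ ^ 5 * A.card * s ^ (2 * t) ≤ 1600 * (Fintype.card ι : ℝ) ^ 2 * Mx ^ 5 * (2 * m) ^ 5 *
      8 ^ N * (Fintype.card Sg : ℝ) ^ t * (Fintype.card H : ℝ) ^ N := by
  classical
  have hB : 0 < (Fintype.card B : ℝ) := by exact_mod_cast Fintype.card_pos
  have hs0 : 0 < s := by linarith
  have hM0 : 0 < Mx := by linarith
  -- the weighted form of the moment condition
  have hDp' : ∀ c : (Fin N → J) → ℝ, (∀ κ, t ≤ lv Φ κ → c κ = 0) →
      0 ≤ ∑ z, D z * (∑ κ, c κ * Psi Φ s κ z) ^ 2 := by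
    intro c hc
    have h1 := hDp (fun κ => c κ / ∏ i, Φ.w s (κ i)) (fun κ hκ => by rw [hc κ hκ, zero_div])
    refine h1.trans (le_of_eq ?_)
    refine Finset.sum_congr rfl fun z _ => ?_
    congr 2
    refine Finset.sum_congr rfl fun κ _ => ?_
    unfold Psi Bas.ψ
    rw [Finset.prod_div_distrib]
    ring
  obtain ⟨K, hK⟩ : ∃ K, K = 1 + ∑ a ∈ A, (L a).trace := ⟨_, rfl⟩
  have hK1 : 1 ≤ K := by
    have : 0 ≤ ∑ a ∈ A, (L a).trace := Finset.sum_nonneg fun a _ => trace_nonneg (hL a)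
    linarith
  have hK0 : 0 < K := by linarith
  obtain ⟨ε, hε⟩ : ∃ ε, ε = δ / (4 * K * Mx) := ⟨_, rfl⟩
  have hε0 : 0 < ε := by
    rw [hε]
    positivity
  have hεL : ∀ a ∈ A, Mx * (ε * (L a).trace) ≤ δ / 4 := by
    intro a ha
    have h1 : (L a).trace ≤ K := by
      have : (L a).trace ≤ ∑ a ∈ A, (L a).trace :=
        Finset.single_le_sum (f := fun a => (L a).trace) (fun a _ => trace_nonneg (hL a)) ha
      linarith
    have h2 : Mx * (ε * (L a).trace) = δ / 4 * ((L a).trace / K) := by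
      rw [hε]
      field_simp
    rw [h2]
    have h3 : (L a).trace / K ≤ 1 := by
      rw [div_le_one hK0]
      exact h1
    nlinarith
  have hεL' : ∀ a ∈ A, ε * (L a).trace ≤ δ / 4 := by
    intro a ha
    have h1 := hεL a ha
    have h2 : 0 ≤ ε * (L a).trace := mul_nonneg hε0.le (trace_nonneg (hL a))
    nlinarith
  obtain ⟨β, hβ⟩ : ∃ β : ℝ, β = (Fintype.card B : ℝ) ^ N := ⟨_, rfl⟩
  have hβ0 : 0 < β := by rw [hβ]; positivity
  obtain ⟨P, hP⟩ : ∃ P : Matrix ι ι ℝ, P = (1 / β) • ∑ b, (S b + ε • (1 : Matrix ι ι ℝ)) :=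
    ⟨_, rfl⟩
  have hPsum : ∑ b, (S b + ε • (1 : Matrix ι ι ℝ)) = β • P := by
    rw [hP, smul_smul, mul_one_div_cancel hβ0.ne', one_smul]
  have hPd : P.PosDef := by
    have h1 : P = (1 / β) • ∑ b, S b + ε • (1 : Matrix ι ι ℝ) := by
      rw [hP, Finset.sum_add_distrib, Finset.sum_const, Finset.card_univ, Fintype.card_pi_const,
        smul_add, ← Nat.cast_smul_eq_nsmul ℝ, Nat.cast_pow, ← hβ, smul_smul, smul_smul,
        one_div_mul_cancel hβ0.ne', one_mul]
    rw [h1]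
    refine Matrix.PosDef.posSemidef_add ?_ ?_
    · exact Matrix.PosSemidef.smul (Matrix.posSemidef_sum _ fun b _ => hS b) (by positivity)
    · exact Matrix.PosDef.one.smul hε0
  obtain ⟨Y, Z, hYs, hZs, hYZ, hZY, hZPZ⟩ := exists_change hPd
  have htr : ∀ a b, (Y * L a * Yᵀ * (Z * (S b + ε • (1 : Matrix ι ι ℝ)) * Zᵀ)).trace =
      (L a * S b).trace + ε * (L a).trace := by
    intro a b
    have h1 : Y * L a * Yᵀ * (Z * (S b + ε • (1 : Matrix ι ι ℝ)) * Zᵀ) =
        Y * (L a * (S b + ε • (1 : Matrix ι ι ℝ))) * Z := by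
      rw [hYs, hZs]
      calc Y * L a * Y * (Z * (S b + ε • (1 : Matrix ι ι ℝ)) * Z) =
          Y * L a * (Y * Z) * (S b + ε • (1 : Matrix ι ι ℝ)) * Z := by
            simp only [Matrix.mul_assoc]
        _ = Y * (L a * (S b + ε • (1 : Matrix ι ι ℝ))) * Z := by
            rw [hYZ, Matrix.mul_one]
            simp only [Matrix.mul_assoc]
    rw [h1, Matrix.trace_mul_comm, ← Matrix.mul_assoc, hZY, Matrix.one_mul, Matrix.mul_add,
      Matrix.trace_add, Matrix.mul_smul, Matrix.mul_one, Matrix.trace_smul, smul_eq_mul]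
  refine core_norm2 Φ hs1 hh hsH hQs hMx hδ (by linarith) D hDM hDp' A
    (fun a => Y * L a * Yᵀ) (fun b => Z * (S b + ε • (1 : Matrix ι ι ℝ)) * Zᵀ)
    (fun a => psd_conj (hL a) Y)
    (fun b => psd_conj ((hS b).add (Matrix.PosDef.one.smul hε0).posSemidef) Z) ?_ ?_ ?_
  · rw [← Finset.sum_mul, ← Finset.mul_sum, hPsum, Matrix.mul_smul, Matrix.smul_mul, hZs, hZPZ,
      hβ]
  · intro a ha b
    rw [htr]
    have h1 := hLm a ha b
    have h2 := hεL' a ha
    linarith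
  · have h1 : ∀ b, ∀ a ∈ A, D (apv hh a b) * (Z * (S b + ε • (1 : Matrix ι ι ℝ)) * Zᵀ *
        (Y * L a * Yᵀ)).trace ≤ D (apv hh a b) * (L a * S b).trace + δ / 4 := by
      intro b a ha
      rw [Matrix.trace_mul_comm, htr, mul_add]
      have h2 := hεL a ha
      have h3 : D (apv hh a b) * (ε * (L a).trace) ≤ Mx * (ε * (L a).trace) :=
        mul_le_mul_of_nonneg_right ((le_abs_self _).trans (hDM _))
          (mul_nonneg hε0.le (trace_nonneg (hL a)))
      linarith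
    have h2 : ∑ b, ∑ a ∈ A, D (apv hh a b) * (Z * (S b + ε • (1 : Matrix ι ι ℝ)) * Zᵀ *
        (Y * L a * Yᵀ)).trace ≤ ∑ b, ∑ a ∈ A, (D (apv hh a b) * (L a * S b).trace + δ / 4) :=
      Finset.sum_le_sum fun b _ => Finset.sum_le_sum (h1 b)
    refine h2.trans ?_
    rw [Finset.sum_comm]
    simp only [Finset.sum_add_distrib, Finset.sum_const, Finset.card_univ, Fintype.card_pi_const,
      nsmul_eq_mul]
    rw [Nat.cast_pow]
    have h3 := hcor
    nlinarith

end

end Pool.Agent.H70.SDP
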